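import Mathlib
import Pool.Agent.H33.ElemDefs
import Pool.Agent.H33.Arc

namespace Pool.Agent.Results.MP_a762d4_al.Q1
open Pool.Agent.H33.Incl Pool.Agent.H33.Arc FirstOrder Filter

def var (t : ℚ) : ℕ := Encodable.encode (Int.fract t)
def wd (a b c : ℚ) : FreeSemigroup ℕ :=
  FreeSemigroup.of (var a) * FreeSemigroup.of (var b) * FreeSemigroup.of (var c)
def VV : Set (FreeSemigroup ℕ) := {v | ∃ a b c : ℚ, a ≤ b ∧ b ≤ c ∧ c < a + 1 / 2 ∧ v = wd a b c}
def TT : Set Inc :=
  {(FreeSemigroup.of 0 * FreeSemigroup.of 0, {FreeSemigroup.of 0}), (wd 0 (1 / 3) (2 / 3), VV)}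

def SL (L : ℝ) : Type := {A : Set ℝ // Good L A}

@[reducible] def sg (L : ℝ) (hL : L < 1 / 2) : Semigroup (SL L) where
  mul A B := ⟨A.1 ∩ B.1, A.2.inter hL B.2⟩
  mul_assoc A B C := Subtype.ext (Set.inter_assoc A.1 B.1 C.1)

def SS (L : ℝ) (hL : L < 1 / 2) : Semigrp.{0} := @Semigrp.of (SL L) (sg L hL)

lemma lift_wd (S : Semigrp.{0}) (φ : ℕ → S) (a b c : ℚ) :
    FreeSemigroup.lift φ (wd a b c) = φ (var a) * φ (var b) * φ (var c) := by
  simp [wd]

lemma mul_val (L : ℝ) (hL : L < 1 / 2) (A B : SS L hL) : (A * B).1 = A.1 ∩ B.1 := rfl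

lemma var_per (t : ℚ) : var (t + 1) = var t := by simp [var]

lemma mem_models (L : ℝ) (hL : L < 1 / 2) : SS L hL ∈ Models TT := by
  rintro c (rfl | rfl) φ
  · exact ⟨_, rfl, Subtype.ext (Set.inter_self _)⟩
  · simp only [lift_wd]
    rcases ((φ (var 0)).1 ∩ (φ (var (1 / 3))).1 ∩ (φ (var (2 / 3))).1).eq_empty_or_nonempty with h | h
    · by_contra hc
      push Not at hc
      refine (caseB hL (fun t => (φ (var t)).1) (fun t => (φ (var t)).2) (fun t => by rw [var_per])
        fun a b c h1 h2 h3 => ?_).ne_empty h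
      rw [Set.nonempty_iff_ne_empty]
      intro h0
      refine hc _ ⟨a, b, c, h1, h2, h3, rfl⟩ ?_
      rw [lift_wd]
      exact Subtype.ext (h.trans h0.symm)
    · have e : var 1 = var 0 := by simpa using var_per 0
      rcases caseA hL (φ (var 0)).2 (φ (var (1 / 3))).2 (φ (var (2 / 3))).2 h with h | h | h
      · refine ⟨_, ⟨0, 1 / 3, 1 / 3, by norm_num, by norm_num, by norm_num, rfl⟩, ?_⟩
        rw [lift_wd]
        apply Subtype.ext
        simp only [mul_val]
        ext x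
        exact ⟨fun hx => ⟨hx.1, hx.1.2⟩, fun hx => ⟨hx.1, h hx.1⟩⟩
      · refine ⟨_, ⟨1 / 3, 2 / 3, 2 / 3, by norm_num, by norm_num, by norm_num, rfl⟩, ?_⟩
        rw [lift_wd]
        apply Subtype.ext
        simp only [mul_val]
        ext x
        exact ⟨fun hx => ⟨⟨hx.1.2, hx.2⟩, hx.2⟩, fun hx => ⟨⟨h hx.1, hx.1.1⟩, hx.2⟩⟩
      · refine ⟨_, ⟨2 / 3, 1, 1, by norm_num, by norm_num, by norm_num, rfl⟩, ?_⟩
        rw [lift_wd, e]
        apply Subtype.ext
        simp only [mul_val]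
        ext x
        exact ⟨fun hx => ⟨⟨hx.2, hx.1.1⟩, hx.1.1⟩, fun hx => ⟨⟨hx.2, h hx.1⟩, hx.1.1⟩⟩

noncomputable def LL (i : ℕ) : ℝ := 1 / 2 - 1 / (i + 1)

lemma LL_lt (i : ℕ) : LL i < 1 / 2 := by
  have : (0 : ℝ) < 1 / (i + 1) := by positivity
  unfold LL; linarith

noncomputable def asg (L : ℝ) (hL : L < 1 / 2) (n : ℕ) : SS L hL :=
  ⟨arc (((Encodable.decode n : Option ℚ).getD 0 : ℚ) - L / 2)
    (((Encodable.decode n : Option ℚ).getD 0 : ℚ) + L / 2), Or.inr ⟨_, _, by linarith, rfl⟩⟩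

lemma asg_var (L : ℝ) (hL : L < 1 / 2) (t : ℚ) :
    (asg L hL (var t)).1 = arc (t - L / 2) (t + L / 2) := by
  simp only [asg, var, Encodable.encodek, Option.getD_some]
  rw [← arc_shift (t - L / 2) _ ⌊t⌋, Int.fract]
  push_cast
  congr 1 <;> ring

lemma asg_u (L : ℝ) (hL : L < 1 / 2) :
    (FreeSemigroup.lift (asg L hL) (wd 0 (1 / 3) (2 / 3))).1 = ∅ := by
  rw [lift_wd, mul_val, mul_val, asg_var, asg_var, asg_var, Set.eq_empty_iff_forall_notMem]
  rintro x ⟨⟨⟨i, i1, i2⟩, ⟨j, j1, j2⟩⟩, ⟨k, k1, k2⟩⟩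
  push_cast at *
  have a : i = j := int_eq (by linarith) (by linarith)
  have b : j = k := int_eq (by linarith) (by linarith)
  subst a b
  linarith

lemma asg_v (a b c : ℚ) (h1 : a ≤ b) (h2 : b ≤ c) (h3 : c < a + 1 / 2) : ∀ᶠ i in atTop,
    (FreeSemigroup.lift (asg (LL i) (LL_lt i)) (wd a b c)).1.Nonempty := by
  have h1' : (a : ℝ) ≤ b := by exact_mod_cast h1
  have h2' : (b : ℝ) ≤ c := by exact_mod_cast h2
  have h3' : (c : ℝ) < a + 1 / 2 := by
    have : (c : ℝ) < ((a + 1 / 2 : ℚ) : ℝ) := by exact_mod_cast h3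
    simpa using this
  filter_upwards [tendsto_one_div_add_atTop_nhds_zero_nat.eventually
    (ge_mem_nhds (show (0 : ℝ) < a + 1 / 2 - c by linarith))] with i hi
  rw [lift_wd, mul_val, mul_val, asg_var, asg_var, asg_var]
  have : (c : ℝ) - a ≤ LL i := by unfold LL; linarith
  exact ⟨(a + c) / 2, ⟨⟨0, by push_cast; linarith, by push_cast; linarith⟩,
    ⟨0, by push_cast; linarith, by push_cast; linarith⟩⟩,
    ⟨0, by push_cast; linarith, by push_cast; linarith⟩⟩

section ultra
variable (M : ℕ → Semigrp.{0}) (u : Ultrafilter ℕ)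

@[reducible] noncomputable def pStr : Lm.Structure ((u : Filter ℕ).Product fun i => M i) :=
  @Language.Ultraproduct.structure ℕ (fun i => M i) u Lm (fun i => strOf (M i))

noncomputable def pmul (x y : (u : Filter ℕ).Product fun i => M i) :
    (u : Filter ℕ).Product fun i => M i := (pStr M u).funMap MulSym.mul ![x, y]

lemma pmul_mk (x y : ∀ i, M i) : pmul M u (x : (u : Filter ℕ).Product fun i => M i) y =
    ((fun i => x i * y i : ∀ i, M i) : (u : Filter ℕ).Product fun i => M i) := by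
  have := @Language.Ultraproduct.funMap_cast ℕ (fun i => M i) u Lm (fun i => strOf (M i)) 2
    MulSym.mul ![x, y]
  refine Eq.trans ?_ this
  unfold pmul
  congr 1
  funext i; fin_cases i <;> rfl

@[reducible] noncomputable def pSg : Semigroup ((u : Filter ℕ).Product fun i => M i) where
  mul := pmul M u
  mul_assoc a b c := by
    induction a using Quotient.inductionOn' with | h a =>
    induction b using Quotient.inductionOn' with | h b =>
    induction c using Quotient.inductionOn' with | h c =>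
    exact ((congrArg (fun z => pmul M u z _) (pmul_mk M u a b)).trans (pmul_mk M u _ c)).trans
      ((congrArg _ (funext fun i => mul_assoc _ _ _)).trans
        ((congrArg (pmul M u _) (pmul_mk M u b c)).trans (pmul_mk M u a _)).symm)

noncomputable def PP : Semigrp.{0} := @Semigrp.of _ (pSg M u)

lemma str_eq : strOf (PP M u) = pStr M u := by
  refine Language.Structure.ext ?_ ?_
  · funext n f x
    cases f
    show (pStr M u).funMap MulSym.mul ![x 0, x 1] = _
    congr 1
    funext i; fin_cases i <;> rfl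
  · funext n r; exact r.elim

end ultra

theorem result : ∃ T : Set Inc, (∀ c ∈ T, c.2.Nonempty) ∧
    (∀ S ∈ Models T, ∀ x : S, x * x = x) ∧ ¬ Elementary (Models T) := by
  refine ⟨TT, ?_, ?_, ?_⟩
  · rintro c (rfl | rfl)
    · exact Set.singleton_nonempty _
    · exact ⟨_, 0, 0, 0, le_rfl, le_rfl, by norm_num, rfl⟩
  · intro S hS x
    obtain ⟨v, rfl, h⟩ := hS _ (Or.inl rfl) (fun _ => x)
    simpa using h
  · rintro ⟨Th, hTh⟩
    let M : ℕ → Semigrp.{0} := fun i => SS (LL i) (LL_lt i)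
    let u := hyperfilter ℕ
    have hne : ∀ i, Nonempty (M i) := fun i => ⟨⟨∅, Or.inl rfl⟩⟩
    have hP : PP M u ∈ Models TT := by
      rw [hTh, str_eq]
      refine @Language.Theory.Model.mk _ _ (pStr M u) _ fun φ hφ => ?_
      refine (@Language.Ultraproduct.sentence_realize ℕ (fun i => M i) u Lm (fun i => strOf (M i))
        hne φ).2 (Eventually.of_forall fun i => ?_)
      exact @Language.Theory.Model.realize_of_mem _ _ (strOf (M i)) _
        ((hTh _).1 (mem_models _ _)) φ hφ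
    obtain ⟨v, ⟨a, b, c, h1, h2, h3, rfl⟩, hv⟩ := hP _ (Or.inr rfl)
      (fun n => ((fun i => asg (LL i) (LL_lt i) n : ∀ i, M i) : (u : Filter ℕ).Product fun i => M i))
    have key : ∀ a b c : ℚ, FreeSemigroup.lift (β := PP M u) (fun n =>
        ((fun i => asg (LL i) (LL_lt i) n : ∀ i, M i) : (u : Filter ℕ).Product fun i => M i)) (wd a b c) =
        ((fun i => FreeSemigroup.lift (asg (LL i) (LL_lt i)) (wd a b c) : ∀ i, M i) :
          (u : Filter ℕ).Product fun i => M i) := by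
      intro a b c
      simp only [lift_wd]
      exact (congrArg (fun z => pmul M u z _) (pmul_mk M u _ _)).trans (pmul_mk M u _ _)
    simp only [key] at hv
    have h4 : ∀ᶠ i in (u : Filter ℕ), FreeSemigroup.lift (asg (LL i) (LL_lt i)) (wd 0 (1 / 3) (2 / 3)) =
        FreeSemigroup.lift (asg (LL i) (LL_lt i)) (wd a b c) := Quotient.exact' hv
    have h5 := (asg_v a b c h1 h2 h3).filter_mono
      (show (u : Filter ℕ) ≤ atTop from Nat.hyperfilter_le_atTop)
    obtain ⟨i, i1, i2⟩ := (h4.and h5).exists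
    rw [← i1, asg_u] at i2
    exact Set.not_nonempty_empty i2

end Pool.Agent.Results.MP_a762d4_al.Q1
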